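import Pool.Agent.Run7.h236.Rot.A8

set_option autoImplicit false

/-!
# Infinitely many rotation snarks

For every odd `i ≥ 3` there is a rotation `T_i`-snark; in particular there are infinitely many
pairwise non-isomorphic rotation snarks.

Construction.  Take the pole `P` on seven vertices which is the Petersen graph without a path on
three vertices: a complete binary tree with root port `c` and two pairs of leaf ports `U`, `W`, in
which for every 3-edge-colouring exactly one of the pairs is monochromatic.  Four copies of such a
pole and three new vertices form again such a pole, two levels higher; and three copies around a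
centre, the pair `W` of each joined to the pair `U` of the next, form a rotation snark.
-/

namespace Pool.Agent.Results.MP_3688cb_co.InfinitelyMany

open Pool.Agent.N366.RS (width width_pos Node leaf IsRotationTSnark)
open Run7.h236.Rot

theorem exists_snark (n : ℕ) : ∃ (V : Type) (G : SimpleGraph V),
    IsRotationTSnark (2 * n + 3) G := by
  obtain ⟨V, hV, A, t, lab, hG, hL⟩ := exists_pole n
  exact ⟨_, GC A t hG, GC_rot hG hL (by omega)⟩

theorem width_le (d i : ℕ) (h : d ≤ i) : width d ≤ 3 * 2 ^ i := by
  unfold width
  split_ifs with h0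
  · have : 0 < 2 ^ i := by positivity
    omega
  · have : 2 ^ (d - 1) ≤ 2 ^ i := Nat.pow_le_pow_right (by norm_num) (by omega)
    omega

instance node_finite (i : ℕ) : Finite (Node i) := by
  let F : Node i → Fin (i + 1) × Fin (3 * 2 ^ i) := fun p =>
    (⟨p.1.1, Nat.lt_succ_of_le p.2.1⟩, ⟨p.1.2, lt_of_lt_of_le p.2.2 (width_le _ _ p.2.1)⟩)
  refine Finite.of_injective F ?_
  rintro ⟨⟨a, b⟩, h⟩ ⟨⟨c, d⟩, h'⟩ he
  simp only [F, Prod.mk.injEq, Fin.mk.injEq] at he
  apply Subtype.ext
  exact Prod.ext he.1 he.2

theorem node_lt (i k : ℕ) (h : i < k) (e : Node k ≃ Node i) : False := by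
  let F : Node i → Node k := fun p => ⟨p.1, le_trans p.2.1 h.le, p.2.2⟩
  have hF : Function.Injective F := by
    intro p q hpq
    apply Subtype.ext
    exact congrArg (fun z : Node k => z.1) hpq
  have hs : Function.Surjective F := (Function.Injective.surjective_of_finite e.symm) hF
  obtain ⟨p, hp⟩ := hs (leaf k 0)
  have h1 : p.1.1 = k := congrArg (fun z : Node k => z.1.1) hp
  have := p.2.1
  omega

theorem not_iso {V W : Type} {G : SimpleGraph V} {H : SimpleGraph W} {i k : ℕ}
    (hG : IsRotationTSnark i G) (hH : IsRotationTSnark k H) (h : i ≠ k) : IsEmpty (G ≃g H) := by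
  refine ⟨fun e => ?_⟩
  obtain ⟨-, -, φ, -⟩ := hG
  obtain ⟨-, -, ψ, -⟩ := hH
  let E : Node i ≃ Node k := φ.trans (e.toEquiv.trans ψ.symm)
  rcases Nat.lt_or_gt_of_ne h with h | h
  · exact node_lt i k h E.symm
  · exact node_lt k i h E

/-- There are infinitely many pairwise non-isomorphic rotation snarks: a sequence of pairwise
non-isomorphic graphs whose `n`-th member is a rotation `T_(2n+3)`-snark. -/
theorem result : ∃ (V : ℕ → Type) (G : ∀ n, SimpleGraph (V n)),
    (∀ n, IsRotationTSnark (2 * n + 3) (G n)) ∧ ∀ m n, m ≠ n → IsEmpty (G m ≃g G n) := by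
  choose V G h using exists_snark
  exact ⟨V, G, h, fun m n hmn => not_iso (h m) (h n) (by omega)⟩

end Pool.Agent.Results.MP_3688cb_co.InfinitelyMany
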